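import Mathlib
import Pool.Agent.Q64.VP.Stm
import Pool.Agent.Helper304.LapBasic

open MeasureTheory Filter Topology Set Metric
open scoped ENNReal NNReal ContDiff Laplacian

namespace Pool.Agent.Q178.VP.CK

open Pool.Agent.Q64.VP
open Helper304Lap (Tst pd lap bv)

variable {N : ℕ}

theorem green {J v : E N → ℝ} (hJ : Tst J) (hv : ContDiff ℝ ∞ v) :
    ∫ x, v x * lap J x = ∫ x, lap v x * J x := by
  unfold lap
  simp only [Finset.mul_sum, Finset.sum_mul]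
  rw [integral_finsetSum, integral_finsetSum]
  · apply Finset.sum_congr rfl
    intro i _
    rw [Helper304Lap.ibp (hJ.pd i) hv i, Helper304Lap.ibp hJ (Helper304Lap.contDiff_pd hv i) i,
      neg_neg]
  · intro i _
    exact (hJ.smooth_mul (Helper304Lap.contDiff_pd (Helper304Lap.contDiff_pd hv i) i)).integrable
  · intro i _
    exact (((hJ.pd i).pd i).smooth_mul hv).integrable

/-- the cut-off -/
noncomputable def ch (ρ t : ℝ) : ℝ := 1 - Real.smoothTransition ((t - ρ / 3) / (ρ / 3))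

theorem ch_contDiff (ρ : ℝ) : ContDiff ℝ ∞ (ch ρ) := by
  unfold ch
  exact contDiff_const.sub
    (Real.smoothTransition.contDiff.comp ((contDiff_id.sub contDiff_const).div_const (ρ / 3)))

theorem ch_nonneg (ρ t : ℝ) : 0 ≤ ch ρ t := by
  unfold ch
  linarith [Real.smoothTransition.le_one ((t - ρ / 3) / (ρ / 3))]

theorem ch_le_one (ρ t : ℝ) : ch ρ t ≤ 1 := by
  unfold ch
  linarith [Real.smoothTransition.nonneg ((t - ρ / 3) / (ρ / 3))]

theorem ch_one {ρ t : ℝ} (hρ : 0 < ρ) (h : t ≤ ρ / 3) : ch ρ t = 1 := by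
  unfold ch
  rw [Real.smoothTransition.zero_of_nonpos, sub_zero]
  exact div_nonpos_of_nonpos_of_nonneg (by linarith) (by linarith)

theorem ch_zero {ρ t : ℝ} (hρ : 0 < ρ) (h : 2 * ρ / 3 ≤ t) : ch ρ t = 0 := by
  unfold ch
  rw [Real.smoothTransition.one_of_one_le, sub_self]
  rw [le_div_iff₀ (by linarith)]
  linarith

/-- derivative of the cut-off -/
noncomputable def dch (ρ t : ℝ) : ℝ := deriv (ch ρ) t

theorem dch_cont (ρ : ℝ) : Continuous (dch ρ) := by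
  have h := (contDiff_infty_iff_deriv.1 (ch_contDiff ρ)).2
  exact h.continuous

theorem ch_hasDerivAt (ρ t : ℝ) : HasDerivAt (ch ρ) (dch ρ t) t :=
  ((ch_contDiff ρ).differentiable (by simp) t).hasDerivAt

theorem dch_zero_left {ρ t : ℝ} (hρ : 0 < ρ) (h : t < ρ / 3) : dch ρ t = 0 := by
  unfold dch
  have : ch ρ =ᶠ[𝓝 t] fun _ => 1 := by
    filter_upwards [Iio_mem_nhds h] with y hy
    exact ch_one hρ (le_of_lt hy)
  rw [this.deriv_eq]
  simp

theorem dch_zero_right {ρ t : ℝ} (hρ : 0 < ρ) (h : 2 * ρ / 3 < t) : dch ρ t = 0 := by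
  unfold dch
  have : ch ρ =ᶠ[𝓝 t] fun _ => 0 := by
    filter_upwards [Ioi_mem_nhds h] with y hy
    exact ch_zero hρ (le_of_lt hy)
  rw [this.deriv_eq]
  simp

theorem dch_bdd {ρ : ℝ} (hρ : 0 < ρ) : ∃ C : ℝ, 0 ≤ C ∧ ∀ t, |dch ρ t| ≤ C := by
  obtain ⟨C, hC⟩ := (isCompact_Icc (a := (0 : ℝ)) (b := ρ)).exists_bound_of_continuousOn
    (dch_cont ρ).continuousOn
  refine ⟨max C 0, le_max_right _ _, fun t => ?_⟩
  by_cases h : t ∈ Icc 0 ρ
  · exact (hC t h).trans (le_max_left _ _)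
  · have : dch ρ t = 0 := by
      by_cases h0 : t < ρ / 3
      · exact dch_zero_left hρ h0
      · apply dch_zero_right hρ
        by_contra h1
        exact h ⟨by linarith, by linarith⟩
    rw [this, abs_zero]
    exact le_max_right _ _

/-- `∫_t^ρ χ(s) s^(1-N) ds` -/
noncomputable def K (N : ℕ) (ρ t : ℝ) : ℝ := ∫ s in t..ρ, ch ρ s * (s ^ (N - 1))⁻¹

theorem K_hasDerivAt {N : ℕ} {ρ t : ℝ} (hρ : 0 < ρ) (ht : 0 < t) :
    HasDerivAt (K N ρ) (-(ch ρ t * (t ^ (N - 1))⁻¹)) t := by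
  unfold K
  have hcont : ContinuousOn (fun s : ℝ => ch ρ s * (s ^ (N - 1))⁻¹) (Ioi 0) := by
    apply ((ch_contDiff ρ).continuous.continuousOn).mul
    apply ContinuousOn.inv₀ (by fun_prop)
    intro s hs
    exact pow_ne_zero _ (ne_of_gt hs)
  have hsub : uIcc t ρ ⊆ Ioi 0 := by
    intro s hs
    rcases mem_uIcc.1 hs with h | h
    · exact lt_of_lt_of_le ht h.1
    · exact lt_of_lt_of_le hρ h.1
  apply intervalIntegral.integral_hasDerivAt_left
  · exact (hcont.mono hsub).intervalIntegrable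
  · exact hcont.stronglyMeasurableAtFilter isOpen_Ioi t ht
  · exact hcont.continuousAt (Ioi_mem_nhds ht)

theorem K_contDiffOn (N : ℕ) {ρ : ℝ} (hρ : 0 < ρ) : ContDiffOn ℝ ∞ (K N ρ) (Ioi 0) := by
  rw [contDiffOn_infty_iff_deriv_of_isOpen isOpen_Ioi]
  refine ⟨fun t ht => (K_hasDerivAt hρ ht).differentiableAt.differentiableWithinAt, ?_⟩
  have h : ContDiffOn ℝ ∞ (fun t : ℝ => -(ch ρ t * (t ^ (N - 1))⁻¹)) (Ioi 0) := by
    apply ContDiffOn.neg
    apply (ch_contDiff ρ).contDiffOn.mul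
    apply ContDiffOn.inv (contDiff_id.pow _).contDiffOn
    intro s hs
    exact pow_ne_zero _ (ne_of_gt hs)
  exact h.congr fun t ht => (K_hasDerivAt hρ ht).deriv

theorem K_zero (N : ℕ) {ρ t : ℝ} (hρ : 0 < ρ) (h : 2 * ρ / 3 ≤ t) : K N ρ t = 0 := by
  unfold K
  have : ∫ s in t..ρ, ch ρ s * (s ^ (N - 1))⁻¹ = ∫ s in t..ρ, (0 : ℝ) := by
    apply intervalIntegral.integral_congr
    intro s hs
    have hs' : 2 * ρ / 3 ≤ s := by
      rcases mem_uIcc.1 hs with h1 | h1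
      · linarith [h1.1]
      · linarith [h1.1]
    simp only
    rw [ch_zero hρ hs', zero_mul]
  rw [this]
  simp

/-- `sqrt (‖x‖^2 + ε^2)` -/
noncomputable def rr (ε : ℝ) (x : E N) : ℝ := Real.sqrt (‖x‖ ^ 2 + ε ^ 2)

theorem rr_pos {ε : ℝ} (hε : 0 < ε) (x : E N) : 0 < rr ε x := by
  unfold rr
  positivity

theorem rr_sq (ε : ℝ) (x : E N) : rr ε x ^ 2 = ‖x‖ ^ 2 + ε ^ 2 := by
  unfold rr
  exact Real.sq_sqrt (by positivity)

theorem le_rr (ε : ℝ) (x : E N) : ‖x‖ ≤ rr ε x := by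
  unfold rr
  apply Real.le_sqrt_of_sq_le
  nlinarith [sq_nonneg ε]

theorem rr_contDiff {ε : ℝ} (hε : 0 < ε) : ContDiff ℝ ∞ (rr (N := N) ε) := by
  unfold rr
  apply ContDiff.sqrt
  · exact (contDiff_norm_sq ℝ).add contDiff_const
  · intro x
    positivity

theorem pd_rr {ε : ℝ} (hε : 0 < ε) (i : Fin N) (x : E N) : pd i (rr ε) x = x i / rr ε x := by
  unfold pd
  have h1 : HasFDerivAt (fun x : E N => ‖x‖ ^ 2 + ε ^ 2) (2 • (innerSL ℝ x)) x := by
    simpa using (hasStrictFDerivAt_norm_sq x).hasFDerivAt.add_const (ε ^ 2)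
  have h2 := h1.sqrt (by positivity)
  have h3 : fderiv ℝ (rr ε) x = (1 / (2 * Real.sqrt (‖x‖ ^ 2 + ε ^ 2))) • (2 • (innerSL ℝ x)) :=
    h2.fderiv
  rw [h3]
  have h4 : inner ℝ x (bv i : E N) = x i := by
    simp [bv, EuclideanSpace.inner_single_right]
  simp only [ContinuousLinearMap.smul_apply, innerSL_apply_apply, smul_eq_mul, nsmul_eq_mul]
  rw [h4]
  unfold rr
  have : Real.sqrt (‖x‖ ^ 2 + ε ^ 2) ≠ 0 := by positivity
  field_simp
  try norm_num

theorem pd_coord (i : Fin N) (x : E N) : pd i (fun x : E N => x i) x = 1 := by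
  unfold pd
  have hP : HasFDerivAt (fun x : E N => x i) (EuclideanSpace.proj i : E N →L[ℝ] ℝ) x :=
    (EuclideanSpace.proj i : E N →L[ℝ] ℝ).hasFDerivAt
  rw [hP.fderiv]
  simp [bv]

/-- the regularised kernel -/
noncomputable def ke (N : ℕ) (ρ ε : ℝ) (x : E N) : ℝ := K N ρ (rr ε x)

theorem ke_tst {ρ ε : ℝ} (hρ : 0 < ρ) (hε : 0 < ε) : Tst (ke N ρ ε) := by
  constructor
  · exact (K_contDiffOn N hρ).comp_contDiff (rr_contDiff hε) fun x => rr_pos hε x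
  · apply HasCompactSupport.of_support_subset_isCompact (isCompact_closedBall (0 : E N) ρ)
    intro x hx
    rw [mem_closedBall_zero_iff]
    by_contra h
    push Not at h
    apply hx
    exact K_zero N hρ (by linarith [le_rr ε x])

theorem pd_ke (hN : 1 ≤ N) {ρ ε : ℝ} (hρ : 0 < ρ) (hε : 0 < ε) (i : Fin N) :
    pd i (ke N ρ ε) = fun x => -(ch ρ (rr ε x) * (rr ε x ^ N)⁻¹) * x i := by
  ext x
  have hr := rr_pos hε x
  have h1 := Helper304Lap.pd_comp i (g := K N ρ) ((rr_contDiff hε).differentiable (by simp) x)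
    (K_hasDerivAt (N := N) hρ hr).differentiableAt
  have h2 : pd i (ke N ρ ε) x = deriv (K N ρ) (rr ε x) * pd i (rr ε) x := h1
  rw [h2, (K_hasDerivAt hρ hr).deriv, pd_rr hε]
  have h3 : rr ε x ^ N = rr ε x ^ (N - 1) * rr ε x := by
    rw [← pow_succ]
    congr 1
    omega
  rw [h3, mul_inv]
  ring

theorem lap_ke (hN : 1 ≤ N) {ρ ε : ℝ} (hρ : 0 < ρ) (hε : 0 < ε) (x : E N) :
    lap (ke N ρ ε) x = -(dch ρ (rr ε x) * rr ε x * (rr ε x ^ N)⁻¹)
      + ε ^ 2 * (dch ρ (rr ε x) * (rr ε x ^ (N + 1))⁻¹)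
      - N * ε ^ 2 * (ch ρ (rr ε x) * (rr ε x ^ (N + 2))⁻¹) := by
  have hr := rr_pos hε x
  set r := rr ε x with hrdef
  have hg : HasDerivAt (fun t : ℝ => -(ch ρ t * (t ^ N)⁻¹))
      (-(dch ρ r * (r ^ N)⁻¹ + ch ρ r * (-(N * r ^ (N - 1)) / (r ^ N) ^ 2))) r := by
    have h1 : HasDerivAt (fun t : ℝ => (t ^ N)⁻¹) (-(N * r ^ (N - 1)) / (r ^ N) ^ 2) r :=
      (hasDerivAt_pow N r).inv (pow_ne_zero _ hr.ne')
    exact ((ch_hasDerivAt ρ r).mul h1).neg
  have h2 : ∀ i, pd i (pd i (ke N ρ ε)) x =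
      (-(dch ρ r * (r ^ N)⁻¹ + ch ρ r * (-(N * r ^ (N - 1)) / (r ^ N) ^ 2))) * (x i / r) * x i
        + -(ch ρ r * (r ^ N)⁻¹) := by
    intro i
    rw [pd_ke hN hρ hε i]
    have hd1 : DifferentiableAt ℝ (rr (N := N) ε) x := (rr_contDiff hε).differentiable (by simp) x
    have hd2 : DifferentiableAt ℝ (fun x : E N => -(ch ρ (rr ε x) * (rr ε x ^ N)⁻¹)) x :=
      DifferentiableAt.comp (g := fun t : ℝ => -(ch ρ t * (t ^ N)⁻¹)) x hg.differentiableAt hd1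
    have hd3 : DifferentiableAt ℝ (fun x : E N => x i) x :=
      (EuclideanSpace.proj i : E N →L[ℝ] ℝ).differentiableAt
    rw [Helper304Lap.pd_mul i hd2 hd3, pd_coord, mul_one]
    have h3 := Helper304Lap.pd_comp i (g := fun t : ℝ => -(ch ρ t * (t ^ N)⁻¹)) hd1 hg.differentiableAt
    rw [h3, hg.deriv, pd_rr hε]
  unfold lap
  simp only [h2]
  rw [Finset.sum_add_distrib, Finset.sum_const, Finset.card_univ, Fintype.card_fin, nsmul_eq_mul]
  have h4 : ∑ i, (-(dch ρ r * (r ^ N)⁻¹ + ch ρ r * (-(N * r ^ (N - 1)) / (r ^ N) ^ 2))) * (x i / r) * x i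
      = (-(dch ρ r * (r ^ N)⁻¹ + ch ρ r * (-(N * r ^ (N - 1)) / (r ^ N) ^ 2))) / r * ‖x‖ ^ 2 := by
    rw [EuclideanSpace.real_norm_sq_eq, Finset.mul_sum]
    apply Finset.sum_congr rfl
    intro i _
    ring
  rw [h4]
  have h5 : ‖x‖ ^ 2 = r ^ 2 - ε ^ 2 := by
    have := rr_sq ε x
    linarith
  rw [h5]
  have h6 : r ^ N = r ^ (N - 1) * r := by
    rw [← pow_succ]
    congr 1
    omega
  have h7 : r ^ (N + 1) = r ^ (N - 1) * r * r := by rw [pow_succ, h6]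
  have h8 : r ^ (N + 2) = r ^ (N - 1) * r * r * r := by rw [pow_succ, h7]
  rw [h6, h7, h8]
  have hr1 : r ^ (N - 1) ≠ 0 := pow_ne_zero _ hr.ne'
  have hr2 := hr.ne'
  field_simp
  ring

end Pool.Agent.Q178.VP.CK
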