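import Mathlib
import Pool.Agent.Q178.VP.CK1

open MeasureTheory Filter Topology Set Metric
open scoped ENNReal NNReal ContDiff Laplacian

namespace Pool.Agent.Q178.VP.CK

open Pool.Agent.Q64.VP
open Helper304Lap (Tst pd lap bv)

variable {N : ℕ}

/-- profile of `m` -/
noncomputable def mu (N : ℕ) (ρ s : ℝ) : ℝ := -(dch ρ s * ((max s (ρ / 3)) ^ (N - 1))⁻¹)

noncomputable def mu2 (N : ℕ) (ρ s : ℝ) : ℝ := dch ρ s * ((max s (ρ / 3)) ^ (N + 1))⁻¹

theorem mx_pos {ρ : ℝ} (hρ : 0 < ρ) (s : ℝ) : 0 < max s (ρ / 3) :=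
  lt_of_lt_of_le (by positivity) (le_max_right _ _)

theorem pw_cont {ρ : ℝ} (hρ : 0 < ρ) (n : ℕ) : Continuous (fun s : ℝ => ((max s (ρ / 3)) ^ n)⁻¹) := by
  apply Continuous.inv₀
  · fun_prop
  · intro s
    exact pow_ne_zero _ (mx_pos hρ s).ne'

theorem mu_cont {ρ : ℝ} (hρ : 0 < ρ) : Continuous (mu N ρ) :=
  ((dch_cont ρ).mul (pw_cont hρ (N - 1))).neg

theorem mu2_cont {ρ : ℝ} (hρ : 0 < ρ) : Continuous (mu2 N ρ) :=
  (dch_cont ρ).mul (pw_cont hρ (N + 1))

theorem pw_le {ρ : ℝ} (hρ : 0 < ρ) (n : ℕ) (s : ℝ) :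
    |((max s (ρ / 3)) ^ n)⁻¹| ≤ ((ρ / 3) ^ n)⁻¹ := by
  rw [abs_of_pos (inv_pos.2 (pow_pos (mx_pos hρ s) n))]
  apply inv_anti₀ (by positivity)
  exact pow_le_pow_left₀ (by positivity) (le_max_right _ _) n

theorem mu_bdd {ρ : ℝ} (hρ : 0 < ρ) : ∃ C : ℝ, 0 ≤ C ∧ ∀ s, |mu N ρ s| ≤ C := by
  obtain ⟨C, hC0, hC⟩ := dch_bdd hρ
  refine ⟨C * ((ρ / 3) ^ (N - 1))⁻¹, by positivity, fun s => ?_⟩
  unfold mu
  rw [abs_neg, abs_mul]
  exact mul_le_mul (hC s) (pw_le hρ _ s) (abs_nonneg _) hC0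

theorem mu2_bdd {ρ : ℝ} (hρ : 0 < ρ) : ∃ C : ℝ, 0 ≤ C ∧ ∀ s, |mu2 N ρ s| ≤ C := by
  obtain ⟨C, hC0, hC⟩ := dch_bdd hρ
  refine ⟨C * ((ρ / 3) ^ (N + 1))⁻¹, by positivity, fun s => ?_⟩
  unfold mu2
  rw [abs_mul]
  exact mul_le_mul (hC s) (pw_le hρ _ s) (abs_nonneg _) hC0

theorem mu_zero {ρ s : ℝ} (hρ : 0 < ρ) (h : ρ ≤ s) : mu N ρ s = 0 := by
  unfold mu
  rw [dch_zero_right hρ (by linarith)]
  simp

theorem mu2_zero {ρ s : ℝ} (hρ : 0 < ρ) (h : ρ ≤ s) : mu2 N ρ s = 0 := by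
  unfold mu2
  rw [dch_zero_right hρ (by linarith)]
  simp

theorem lap_ke' (hN : 1 ≤ N) {ρ ε : ℝ} (hρ : 0 < ρ) (hε : 0 < ε) (x : E N) :
    lap (ke N ρ ε) x = mu N ρ (rr ε x) + ε ^ 2 * mu2 N ρ (rr ε x)
      - N * ε ^ 2 * (ch ρ (rr ε x) * (rr ε x ^ (N + 2))⁻¹) := by
  rw [lap_ke hN hρ hε]
  have hr := rr_pos hε x
  set r := rr ε x with hrdef
  have h1 : -(dch ρ r * r * (r ^ N)⁻¹) = mu N ρ r := by
    unfold mu
    by_cases h : r < ρ / 3
    · rw [dch_zero_left hρ h]; simp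
    · push Not at h
      rw [max_eq_left h]
      have h6 : r ^ N = r ^ (N - 1) * r := by
        rw [← pow_succ]
        congr 1
        omega
      rw [h6, mul_inv]
      have := hr.ne'
      field_simp
  have h2 : dch ρ r * (r ^ (N + 1))⁻¹ = mu2 N ρ r := by
    unfold mu2
    by_cases h : r < ρ / 3
    · rw [dch_zero_left hρ h]; simp
    · push Not at h
      rw [max_eq_left h]
  rw [h1, h2]

theorem rr_cont (ε : ℝ) : Continuous (rr (N := N) ε) := by
  unfold rr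
  fun_prop

/-- the sequence -/
noncomputable def en (n : ℕ) : ℝ := 1 / ((n : ℝ) + 1)

theorem en_pos (n : ℕ) : 0 < en n := by unfold en; positivity

theorem en_le_one (n : ℕ) : en n ≤ 1 := by
  unfold en
  rw [div_le_one (by positivity)]
  linarith [(Nat.cast_nonneg n : (0 : ℝ) ≤ n)]

theorem en_lim : Tendsto en atTop (𝓝 0) := tendsto_one_div_add_atTop_nhds_zero_nat

theorem rr_lim (x : E N) : Tendsto (fun n => rr (en n) x) atTop (𝓝 ‖x‖) := by
  have h : Tendsto (fun n => Real.sqrt (‖x‖ ^ 2 + (en n) ^ 2)) atTop (𝓝 (Real.sqrt (‖x‖ ^ 2 + 0 ^ 2))) :=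
    (Real.continuous_sqrt.tendsto _).comp (tendsto_const_nhds.add (en_lim.pow 2))
  have e : Real.sqrt (‖x‖ ^ 2 + 0 ^ 2) = ‖x‖ := by
    rw [zero_pow two_ne_zero, add_zero, Real.sqrt_sq (norm_nonneg x)]
  rw [e] at h
  exact h

theorem T2 {ρ : ℝ} (hρ : 0 < ρ) {ζ : E N → ℝ} (hζ : Continuous ζ) :
    Tendsto (fun n => ∫ x, ζ x * (mu N ρ (rr (en n) x) + en n ^ 2 * mu2 N ρ (rr (en n) x))) atTop
      (𝓝 (∫ x, ζ x * mu N ρ ‖x‖)) := by
  obtain ⟨Cz, hCz⟩ := (isCompact_closedBall (0 : E N) ρ).exists_bound_of_continuousOn hζ.continuousOn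
  obtain ⟨C1, hC10, hC1⟩ := mu_bdd (N := N) hρ
  obtain ⟨C2, hC20, hC2⟩ := mu2_bdd (N := N) hρ
  apply tendsto_integral_of_dominated_convergence
    ((closedBall (0 : E N) ρ).indicator fun _ => Cz * (C1 + C2))
  · intro n
    exact (hζ.mul (((mu_cont hρ).comp (rr_cont _)).add
      (continuous_const.mul ((mu2_cont hρ).comp (rr_cont _))))).aestronglyMeasurable
  · rw [integrable_indicator_iff measurableSet_closedBall]
    exact integrableOn_const (measure_closedBall_lt_top.ne)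
  · intro n
    refine Eventually.of_forall fun x => ?_
    by_cases hx : x ∈ closedBall (0 : E N) ρ
    · rw [indicator_of_mem hx, norm_mul]
      have h1 : ‖mu N ρ (rr (en n) x) + en n ^ 2 * mu2 N ρ (rr (en n) x)‖ ≤ C1 + C2 := by
        refine (norm_add_le _ _).trans (add_le_add (hC1 _) ?_)
        rw [norm_mul, Real.norm_eq_abs, Real.norm_eq_abs, abs_of_nonneg (by positivity)]
        have h2 : en n ^ 2 ≤ 1 := pow_le_one₀ (en_pos n).le (en_le_one n)
        calc en n ^ 2 * |mu2 N ρ (rr (en n) x)| ≤ 1 * C2 :=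
              mul_le_mul h2 (hC2 _) (abs_nonneg _) zero_le_one
          _ = C2 := one_mul _
      exact mul_le_mul (hCz x hx) h1 (norm_nonneg _) ((norm_nonneg _).trans (hCz x hx))
    · rw [indicator_of_notMem hx]
      rw [mem_closedBall_zero_iff] at hx
      push Not at hx
      have h3 : ρ ≤ rr (en n) x := hx.le.trans (le_rr _ _)
      rw [mu_zero hρ h3, mu2_zero hρ h3]
      simp
  · refine Eventually.of_forall fun x => ?_
    have h1 : Tendsto (fun n => mu N ρ (rr (en n) x)) atTop (𝓝 (mu N ρ ‖x‖)) :=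
      ((mu_cont hρ).tendsto _).comp (rr_lim x)
    have h2 : Tendsto (fun n => mu2 N ρ (rr (en n) x)) atTop (𝓝 (mu2 N ρ ‖x‖)) :=
      ((mu2_cont hρ).tendsto _).comp (rr_lim x)
    have h3 := (h1.add ((en_lim.pow 2).mul h2)).const_mul (ζ x)
    simpa using h3

/-- the profile of the approximate identity -/
noncomputable def pf (N : ℕ) (y : E N) : ℝ := (rr 1 y ^ (N + 2))⁻¹

theorem pf_nonneg (y : E N) : 0 ≤ pf N y := by
  unfold pf
  have := rr_pos (ε := 1) one_pos y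
  positivity

theorem pf_cont : Continuous (pf N) := by
  unfold pf
  apply Continuous.inv₀
  · exact (rr_cont 1).pow _
  · intro y
    exact pow_ne_zero _ (rr_pos one_pos y).ne'

theorem pf_int : Integrable (pf N) := by
  have h := integrable_rpow_neg_one_add_norm_sq (E := E N) (μ := volume) (r := (N : ℝ) + 2)
    (by rw [finrank_euclideanSpace_fin]; linarith)
  refine h.congr (Eventually.of_forall fun y => ?_)
  unfold pf rr
  simp only
  have hp : (0 : ℝ) < 1 + ‖y‖ ^ 2 := by positivity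
  have e1 : ‖y‖ ^ 2 + (1 : ℝ) ^ 2 = 1 + ‖y‖ ^ 2 := by ring
  have e2 : Real.sqrt (1 + ‖y‖ ^ 2) ^ (N + 2) = (1 + ‖y‖ ^ 2) ^ (((N : ℝ) + 2) / 2) := by
    rw [Real.sqrt_eq_rpow, ← Real.rpow_natCast ((1 + ‖y‖ ^ 2) ^ (1 / 2 : ℝ)) (N + 2),
      ← Real.rpow_mul hp.le]
    congr 1
    push_cast
    ring
  rw [e1, e2, ← Real.rpow_neg hp.le]
  congr 1
  ring

noncomputable def cc (N : ℕ) : ℝ := N * ∫ y, pf N y

theorem cc_pos (hN : 1 ≤ N) : 0 < cc N := by
  unfold cc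
  apply mul_pos (by exact_mod_cast hN)
  apply integral_pos_of_integrable_nonneg_nonzero (x := (0 : E N)) pf_cont pf_int pf_nonneg
  unfold pf
  exact inv_ne_zero (pow_ne_zero _ (rr_pos one_pos _).ne')

theorem rr_smul {ε : ℝ} (hε : 0 < ε) (y : E N) : rr ε (ε • y) = ε * rr 1 y := by
  unfold rr
  rw [norm_smul, Real.norm_of_nonneg hε.le]
  have : (ε * ‖y‖) ^ 2 + ε ^ 2 = ε ^ 2 * (‖y‖ ^ 2 + 1 ^ 2) := by ring
  rw [this, Real.sqrt_mul (by positivity), Real.sqrt_sq hε.le]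

theorem scale {ρ ε : ℝ} (hε : 0 < ε) (ζ : E N → ℝ) :
    ∫ x, ζ x * (N * ε ^ 2 * (ch ρ (rr ε x) * (rr ε x ^ (N + 2))⁻¹)) =
      N * ∫ y, ζ (ε • y) * (ch ρ (ε * rr 1 y) * pf N y) := by
  have h := Measure.integral_comp_smul (volume : Measure (E N))
    (fun x => ζ x * (N * ε ^ 2 * (ch ρ (rr ε x) * (rr ε x ^ (N + 2))⁻¹))) ε
  rw [finrank_euclideanSpace_fin, abs_of_pos (by positivity), smul_eq_mul] at h
  have h2 : ∫ x, ζ x * (N * ε ^ 2 * (ch ρ (rr ε x) * (rr ε x ^ (N + 2))⁻¹)) =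
      ε ^ N * ∫ x, ζ (ε • x) * (N * ε ^ 2 * (ch ρ (rr ε (ε • x)) * (rr ε (ε • x) ^ (N + 2))⁻¹)) := by
    have : ε ^ N ≠ 0 := pow_ne_zero _ hε.ne'
    rw [h, ← mul_assoc, mul_inv_cancel₀ this, one_mul]
  rw [h2, ← integral_const_mul, ← integral_const_mul]
  congr 1
  ext y
  rw [rr_smul hε]
  unfold pf
  have h3 := rr_pos (ε := 1) one_pos y
  have h4 := hε.ne'
  have h5 := h3.ne'
  rw [mul_pow]
  have h6 : ε ^ (N + 2) = ε ^ N * ε ^ 2 := pow_add _ _ _
  rw [h6]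
  field_simp

theorem T4 {ρ : ℝ} (hρ : 0 < ρ) {ζ : E N → ℝ} (hζ : Continuous ζ) :
    Tendsto (fun n => ∫ x, ζ x * (N * en n ^ 2 * (ch ρ (rr (en n) x) * (rr (en n) x ^ (N + 2))⁻¹)))
      atTop (𝓝 (cc N * ζ 0)) := by
  obtain ⟨Cz, hCz⟩ := (isCompact_closedBall (0 : E N) ρ).exists_bound_of_continuousOn hζ.continuousOn
  have hCz0 : 0 ≤ Cz := (norm_nonneg _).trans (hCz 0 (mem_closedBall_self hρ.le))
  simp only [fun n => scale (N := N) (ρ := ρ) (en_pos n) ζ]
  have key : Tendsto (fun n => ∫ y, ζ (en n • y) * (ch ρ (en n * rr 1 y) * pf N y)) atTop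
      (𝓝 (∫ y, ζ 0 * pf N y)) := by
    apply tendsto_integral_of_dominated_convergence (fun y => Cz * pf N y)
    · intro n
      exact ((hζ.comp (continuous_const_smul _)).mul
        ((((ch_contDiff ρ).continuous).comp (continuous_const.mul (rr_cont 1))).mul
          pf_cont)).aestronglyMeasurable
    · exact pf_int.const_mul _
    · intro n
      refine Eventually.of_forall fun y => ?_
      rw [norm_mul, norm_mul, Real.norm_of_nonneg (ch_nonneg _ _), Real.norm_of_nonneg (pf_nonneg y)]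
      by_cases h : 2 * ρ / 3 ≤ en n * rr 1 y
      · rw [ch_zero hρ h]
        simp only [zero_mul, mul_zero]
        exact mul_nonneg hCz0 (pf_nonneg y)
      · push Not at h
        have h1 : en n • y ∈ closedBall (0 : E N) ρ := by
          rw [mem_closedBall_zero_iff, norm_smul, Real.norm_of_nonneg (en_pos n).le]
          have := mul_le_mul_of_nonneg_left (le_rr 1 y) (en_pos n).le
          linarith
        rw [← mul_assoc]
        apply mul_le_mul_of_nonneg_right _ (pf_nonneg y)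
        calc ‖ζ (en n • y)‖ * ch ρ (en n * rr 1 y) ≤ Cz * 1 :=
              mul_le_mul (hCz _ h1) (ch_le_one _ _) (ch_nonneg _ _) hCz0
          _ = Cz := mul_one _
    · refine Eventually.of_forall fun y => ?_
      have h1 : Tendsto (fun n => ζ (en n • y)) atTop (𝓝 (ζ 0)) := by
        have : Tendsto (fun n => en n • y) atTop (𝓝 ((0 : ℝ) • y)) := en_lim.smul_const y
        rw [zero_smul] at this
        exact (hζ.tendsto _).comp this
      have h2 : Tendsto (fun n => ch ρ (en n * rr 1 y)) atTop (𝓝 1) := by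
        have : Tendsto (fun n => en n * rr 1 y) atTop (𝓝 (0 * rr 1 y)) := en_lim.mul_const _
        rw [zero_mul] at this
        have h3 := ((ch_contDiff ρ).continuous.tendsto 0).comp this
        rw [ch_one hρ (by positivity)] at h3
        exact h3
      have h4 := h1.mul (h2.mul_const (pf N y))
      rw [one_mul] at h4
      exact h4
  have h5 := key.const_mul (N : ℝ)
  have e : (N : ℝ) * ∫ y, ζ 0 * pf N y = cc N * ζ 0 := by
    rw [integral_const_mul]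
    unfold cc
    ring
  rw [e] at h5
  exact h5

end Pool.Agent.Q178.VP.CK
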