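import Mathlib
import Pool.Agent.Q178.VP.CK2

open MeasureTheory Filter Topology Set Metric
open scoped ENNReal NNReal ContDiff Laplacian

namespace Pool.Agent.Q178.VP.CK

open Pool.Agent.Q64.VP
open Helper304Lap (Tst pd lap bv)

variable {N : ℕ}

theorem K_anti {ρ s t : ℝ} (hρ : 0 < ρ) (hs : 0 < s) (hst : s ≤ t) : K N ρ t ≤ K N ρ s := by
  have h : AntitoneOn (K N ρ) (Ioi 0) := by
    apply antitoneOn_of_deriv_nonpos (convex_Ioi 0) (K_contDiffOn N hρ).continuousOn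
    · rw [interior_Ioi]
      exact fun t ht => (K_hasDerivAt hρ ht).differentiableAt.differentiableWithinAt
    · rw [interior_Ioi]
      intro t ht
      rw [(K_hasDerivAt hρ ht).deriv]
      have : 0 ≤ (t ^ (N - 1))⁻¹ := inv_nonneg.2 (pow_nonneg (le_of_lt ht) _)
      have := mul_nonneg (ch_nonneg ρ t) this
      linarith
  exact h hs (lt_of_lt_of_le hs hst) hst

theorem K_nonneg {ρ t : ℝ} (hρ : 0 < ρ) (ht : 0 < t) : 0 ≤ K N ρ t := by
  have h := K_anti (N := N) hρ ht (le_max_left t ρ)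
  rw [K_zero N hρ (by linarith [le_max_right t ρ])] at h
  exact h

/-- the kernel -/
noncomputable def kf (N : ℕ) (ρ : ℝ) (x : E N) : ℝ :=
  indicator {(0 : E N)}ᶜ (fun x => K N ρ ‖x‖) x

theorem kf_eq {ρ : ℝ} {x : E N} (hx : x ≠ 0) : kf N ρ x = K N ρ ‖x‖ :=
  indicator_of_mem (show x ∈ ({(0 : E N)}ᶜ : Set (E N)) from hx) _

theorem kf_zero_at {ρ : ℝ} : kf N ρ 0 = 0 := indicator_of_notMem (by simp) _

theorem kf_nonneg {ρ : ℝ} (hρ : 0 < ρ) (x : E N) : 0 ≤ kf N ρ x := by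
  by_cases hx : x = 0
  · rw [hx, kf_zero_at]
  · rw [kf_eq hx]
    exact K_nonneg hρ (norm_pos_iff.2 hx)

theorem kf_supp {ρ : ℝ} (hρ : 0 < ρ) {x : E N} (hx : ρ ≤ ‖x‖) : kf N ρ x = 0 := by
  have h0 : x ≠ 0 := by
    intro h
    rw [h, norm_zero] at hx
    linarith
  rw [kf_eq h0]
  exact K_zero N hρ (by linarith)

theorem kf_meas {ρ : ℝ} (hρ : 0 < ρ) : Measurable (kf N ρ) := by
  classical
  have h1 : ContinuousOn (fun x : E N => K N ρ ‖x‖) ({(0 : E N)}ᶜ) := by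
    apply (K_contDiffOn N hρ).continuousOn.comp continuous_norm.continuousOn
    intro x hx
    exact norm_pos_iff.2 hx
  have h2 := h1.measurable_piecewise (g := fun _ => (0 : ℝ)) continuousOn_const
    (measurableSet_singleton (0 : E N)).compl
  have h3 : kf N ρ = ({(0 : E N)}ᶜ : Set (E N)).piecewise (fun x : E N => K N ρ ‖x‖) (fun _ => 0) := by
    ext x
    by_cases hx : x = 0
    · rw [hx, kf_zero_at, piecewise_eq_of_notMem _ _ _ (by simp)]
    · rw [kf_eq hx, piecewise_eq_of_mem _ _ _ (by simpa using hx)]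
  rw [h3]
  exact h2

theorem ofReal_K {ρ t : ℝ} (ht : 0 < t) (htρ : t ≤ ρ) :
    ENNReal.ofReal (K N ρ t) = ∫⁻ s in Ioo t ρ, ENNReal.ofReal (ch ρ s * (s ^ (N - 1))⁻¹) := by
  have hcont : ContinuousOn (fun s : ℝ => ch ρ s * (s ^ (N - 1))⁻¹) (Icc t ρ) := by
    apply ((ch_contDiff ρ).continuous.continuousOn).mul
    apply ContinuousOn.inv₀ (by fun_prop)
    intro s hs
    exact pow_ne_zero _ (ne_of_gt (lt_of_lt_of_le ht hs.1))
  have hint : IntegrableOn (fun s : ℝ => ch ρ s * (s ^ (N - 1))⁻¹) (Ioo t ρ) :=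
    (hcont.integrableOn_Icc).mono_set Ioo_subset_Icc_self
  unfold K
  rw [intervalIntegral.integral_of_le htρ, integral_Ioc_eq_integral_Ioo,
    ofReal_integral_eq_lintegral_ofReal hint]
  refine (ae_restrict_iff' measurableSet_Ioo).2 (Eventually.of_forall fun s hs => ?_)
  exact mul_nonneg (ch_nonneg _ _) (inv_nonneg.2 (pow_nonneg (ht.trans hs.1).le _))

theorem rpow_eq (hN : 1 ≤ N) {s : ℝ} (hs : 0 < s) : s ^ (1 - (N : ℝ)) = (s ^ (N - 1))⁻¹ := by
  have : (1 - (N : ℝ)) = -((N - 1 : ℕ) : ℝ) := by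
    push_cast [Nat.cast_sub hN]
    ring
  rw [this, Real.rpow_neg hs.le, Real.rpow_natCast]

theorem kf_le (hN : 1 ≤ N) {ρ D : ℝ} (hρ : 0 < ρ) (hD : ρ ≤ D) {x : E N} (hx : x ≠ 0) :
    ENNReal.ofReal (kf N ρ x) ≤ kk N D ‖x‖ := by
  have ht := norm_pos_iff.2 hx
  rcases le_or_gt ‖x‖ ρ with h | h
  · rw [kf_eq hx, ofReal_K ht h]
    unfold kk
    calc ∫⁻ s in Ioo ‖x‖ ρ, ENNReal.ofReal (ch ρ s * (s ^ (N - 1))⁻¹)
        ≤ ∫⁻ s in Ioo ‖x‖ ρ, ENNReal.ofReal (s ^ (1 - (N : ℝ))) := by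
          apply setLIntegral_mono' measurableSet_Ioo
          intro s hs
          apply ENNReal.ofReal_le_ofReal
          have hs0 : 0 < s := ht.trans hs.1
          rw [rpow_eq hN hs0]
          exact mul_le_of_le_one_left (inv_nonneg.2 (pow_nonneg hs0.le _)) (ch_le_one _ _)
      _ ≤ _ := lintegral_mono_set (Ioo_subset_Ioo_right hD)
  · rw [kf_supp hρ h.le]
    simp

theorem kk_le (hN : 1 ≤ N) {ρ D : ℝ} (hρ : 0 < ρ) :
    ∃ M' : ℝ≥0, ∀ x : E N, x ≠ 0 → kk N D ‖x‖ ≤ ENNReal.ofReal (kf N ρ x) + M' := by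
  have hfin : ∫⁻ s in Ioo (ρ / 3) D, ENNReal.ofReal (s ^ (1 - (N : ℝ))) < ⊤ := by
    calc ∫⁻ s in Ioo (ρ / 3) D, ENNReal.ofReal (s ^ (1 - (N : ℝ)))
        ≤ ∫⁻ s in Ioo (ρ / 3) D, ENNReal.ofReal (((ρ / 3) ^ (N - 1))⁻¹) := by
          apply setLIntegral_mono' measurableSet_Ioo
          intro s hs
          apply ENNReal.ofReal_le_ofReal
          have hs0 : 0 < s := lt_trans (by positivity) hs.1
          rw [rpow_eq hN hs0]
          exact inv_anti₀ (by positivity) (pow_le_pow_left₀ (by positivity) hs.1.le _)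
      _ = ENNReal.ofReal (((ρ / 3) ^ (N - 1))⁻¹) * volume (Ioo (ρ / 3) D) := setLIntegral_const _ _
      _ < ⊤ := ENNReal.mul_lt_top ENNReal.ofReal_lt_top (by rw [Real.volume_Ioo]; exact ENNReal.ofReal_lt_top)
  refine ⟨(∫⁻ s in Ioo (ρ / 3) D, ENNReal.ofReal (s ^ (1 - (N : ℝ)))).toNNReal, fun x hx => ?_⟩
  rw [ENNReal.coe_toNNReal hfin.ne]
  have ht := norm_pos_iff.2 hx
  have h1 : kk N D ‖x‖ ≤ (∫⁻ s in Ioc ‖x‖ (ρ / 3), ENNReal.ofReal (s ^ (1 - (N : ℝ)))) +
      ∫⁻ s in Ioo (ρ / 3) D, ENNReal.ofReal (s ^ (1 - (N : ℝ))) := by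
    unfold kk
    refine (lintegral_mono_set ?_).trans (lintegral_union_le _ _ _)
    intro s hs
    rcases le_or_gt s (ρ / 3) with h | h
    · exact Or.inl ⟨hs.1, h⟩
    · exact Or.inr ⟨h, hs.2⟩
  refine h1.trans (add_le_add_left ?_ _)
  rcases le_or_gt ‖x‖ ρ with h | h
  · rw [kf_eq hx, ofReal_K ht h]
    calc ∫⁻ s in Ioc ‖x‖ (ρ / 3), ENNReal.ofReal (s ^ (1 - (N : ℝ)))
        = ∫⁻ s in Ioc ‖x‖ (ρ / 3), ENNReal.ofReal (ch ρ s * (s ^ (N - 1))⁻¹) := by
          apply setLIntegral_congr_fun measurableSet_Ioc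
          intro s hs
          simp only
          rw [ch_one hρ hs.2, one_mul, rpow_eq hN (ht.trans hs.1)]
      _ ≤ _ := lintegral_mono_set (show Ioc ‖x‖ (ρ / 3) ⊆ Ioo ‖x‖ ρ from
          fun s hs => ⟨hs.1, by linarith [hs.2]⟩)
  · have : Ioc ‖x‖ (ρ / 3) = ∅ := Ioc_eq_empty (by linarith)
    rw [this]
    simp

theorem kf_int (hN : 1 ≤ N) (ton : S_TON) (int : S_INT) {ρ : ℝ} (hρ : 0 < ρ)
    (hae : ∀ᵐ x : E N, x ≠ 0) : Integrable (kf N ρ) := by
  refine ⟨(kf_meas hρ).aestronglyMeasurable, ?_⟩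
  have h1 := int N hN ρ (Measure.dirac (0 : E N)) inferInstance
  have h2 : ∀ x : E N, P ρ (Measure.dirac (0 : E N)) x = kk N ρ ‖x‖ := by
    intro x
    rw [(ton N ρ (Measure.dirac (0 : E N)) inferInstance).1 x, lintegral_dirac, sub_zero]
  simp only [h2] at h1
  unfold HasFiniteIntegral
  refine lt_of_le_of_lt (lintegral_mono_ae ?_) h1
  filter_upwards [hae] with x hx
  rw [Real.enorm_of_nonneg (kf_nonneg hρ x)]
  exact kf_le hN hρ le_rfl hx

theorem T1 {ρ : ℝ} (hρ : 0 < ρ) {ψ : E N → ℝ} (hψ : Continuous ψ) (hint : Integrable (kf N ρ))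
    (hae : ∀ᵐ x : E N, x ≠ 0) :
    Tendsto (fun n => ∫ x, ψ x * ke N ρ (en n) x) atTop (𝓝 (∫ x, ψ x * kf N ρ x)) := by
  obtain ⟨Cz, hCz⟩ := (isCompact_closedBall (0 : E N) ρ).exists_bound_of_continuousOn hψ.continuousOn
  have hCz0 : 0 ≤ Cz := (norm_nonneg _).trans (hCz 0 (mem_closedBall_self hρ.le))
  apply tendsto_integral_of_dominated_convergence (fun x => Cz * kf N ρ x)
  · intro n
    exact (hψ.mul (ke_tst hρ (en_pos n)).cont).aestronglyMeasurable
  · exact hint.const_mul _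
  · intro n
    filter_upwards [hae] with x hx
    have hpos := norm_pos_iff.2 hx
    have h0 : 0 ≤ ke N ρ (en n) x := K_nonneg hρ (rr_pos (en_pos n) x)
    have h1 : ke N ρ (en n) x ≤ kf N ρ x := by
      rw [kf_eq hx]
      exact K_anti hρ hpos (le_rr _ _)
    rw [norm_mul, Real.norm_of_nonneg h0]
    rcases le_or_gt ‖x‖ ρ with h | h
    · exact mul_le_mul (hCz x (mem_closedBall_zero_iff.2 h)) h1 h0 hCz0
    · have h2 : kf N ρ x = 0 := kf_supp hρ h.le
      have h3 : ke N ρ (en n) x = 0 := le_antisymm (h1.trans h2.le) h0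
      rw [h2, h3]
      simp
  · filter_upwards [hae] with x hx
    have hpos := norm_pos_iff.2 hx
    rw [kf_eq hx]
    have hc : ContinuousAt (K N ρ) ‖x‖ :=
      (K_contDiffOn N hρ).continuousOn.continuousAt (Ioi_mem_nhds hpos)
    exact (hc.tendsto.comp (rr_lim x)).const_mul _

theorem ident0 (hN : 1 ≤ N) {ρ : ℝ} (hρ : 0 < ρ) {ζ : E N → ℝ} (hζ : ContDiff ℝ ∞ ζ)
    (hint : Integrable (kf N ρ)) (hae : ∀ᵐ x : E N, x ≠ 0) :
    ∫ x, lap ζ x * kf N ρ x = (∫ x, ζ x * mu N ρ ‖x‖) - cc N * ζ 0 := by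
  have h1 := T1 hρ (Helper304Lap.contDiff_lap hζ).continuous hint hae
  have h2 := (T2 (N := N) hρ hζ.continuous).sub (T4 (N := N) hρ hζ.continuous)
  have h3 : ∀ n, ∫ x, lap ζ x * ke N ρ (en n) x =
      (∫ x, ζ x * (mu N ρ (rr (en n) x) + en n ^ 2 * mu2 N ρ (rr (en n) x))) -
        ∫ x, ζ x * (N * en n ^ 2 * (ch ρ (rr (en n) x) * (rr (en n) x ^ (N + 2))⁻¹)) := by
    intro n
    rw [← green (ke_tst hρ (en_pos n)) hζ, ← integral_sub]
    · congr 1
      ext x
      rw [lap_ke' hN hρ (en_pos n)]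
      ring
    · apply Continuous.integrable_of_hasCompactSupport
      · exact hζ.continuous.mul (((mu_cont hρ).comp (rr_cont _)).add
          (continuous_const.mul ((mu2_cont hρ).comp (rr_cont _))))
      · apply HasCompactSupport.of_support_subset_isCompact (isCompact_closedBall (0 : E N) ρ)
        intro x hx
        rw [mem_closedBall_zero_iff]
        by_contra h
        push Not at h
        apply hx
        have h3 : ρ ≤ rr (en n) x := h.le.trans (le_rr _ _)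
        simp only
        rw [mu_zero hρ h3, mu2_zero hρ h3]
        simp
    · apply Continuous.integrable_of_hasCompactSupport
      · apply hζ.continuous.mul
        apply continuous_const.mul
        apply ((ch_contDiff ρ).continuous.comp (rr_cont _)).mul
        apply Continuous.inv₀ ((rr_cont _).pow _)
        intro x
        exact pow_ne_zero _ (rr_pos (en_pos n) x).ne'
      · apply HasCompactSupport.of_support_subset_isCompact (isCompact_closedBall (0 : E N) ρ)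
        intro x hx
        rw [mem_closedBall_zero_iff]
        by_contra h
        push Not at h
        apply hx
        have h3 : 2 * ρ / 3 ≤ rr (en n) x := by linarith [le_rr (en n) x]
        simp only
        rw [ch_zero hρ h3]
        simp
  simp only [h3] at h1
  exact tendsto_nhds_unique h1 h2

theorem pd_shift (f : E N → ℝ) (a : E N) (i : Fin N) :
    pd i (fun x => f (x + a)) = fun x => pd i f (x + a) := by
  ext x
  unfold pd
  rw [fderiv_comp_add_right]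

theorem lap_shift (f : E N → ℝ) (a : E N) (x : E N) :
    lap (fun x => f (x + a)) x = lap f (x + a) := by
  unfold lap
  apply Finset.sum_congr rfl
  intro i _
  rw [pd_shift, pd_shift]

end Pool.Agent.Q178.VP.CK

namespace Pool.Agent.Q178.VP

open Pool.Agent.Q178.VP.CK Pool.Agent.Q64.VP

theorem t_CKall (ton : S_TON) (int : S_INT) (N : ℕ) (hN : 1 ≤ N) : 0 < cc N ∧ CK N (cc N) := by
  refine ⟨cc_pos hN, fun ρ hρ => ?_⟩
  have : Nonempty (Fin N) := ⟨⟨0, hN⟩⟩
  have : Nontrivial (E N) := inferInstance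
  have hae : ∀ᵐ x : E N, x ≠ 0 := by
    rw [ae_iff]
    simp
  have hint := kf_int hN ton int hρ hae
  obtain ⟨M, _, hM⟩ := mu_bdd (N := N) hρ
  refine ⟨kf N ρ, fun x => mu N ρ ‖x‖, M, kf_meas hρ, hint, (mu_cont hρ).comp continuous_norm,
    fun x => ⟨kf_nonneg hρ x, hM _⟩, fun x hx => ⟨kf_supp hρ hx, mu_zero hρ hx⟩,
    fun D hD x hx => kf_le hN hρ hD hx, fun D _ => kk_le hN hρ, fun ζ hζ a => ?_⟩
  have hζa : ContDiff ℝ ∞ (fun x => ζ (x + a)) := hζ.comp (contDiff_id.add contDiff_const)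
  have h := ident0 hN hρ hζa hint hae
  have e1 : ∫ x, kf N ρ (x - a) * (Laplacian.laplacian ζ) x = ∫ x, Helper304Lap.lap (fun x => ζ (x + a)) x * kf N ρ x := by
    rw [← integral_add_right_eq_self (fun x => kf N ρ (x - a) * (Laplacian.laplacian ζ) x) a]
    congr 1
    ext x
    rw [lap_shift, add_sub_cancel_right, Helper304Lap.lap_eq hζ]
    ring
  have e2 : ∫ x, mu N ρ ‖x - a‖ * ζ x = ∫ x, ζ (x + a) * mu N ρ ‖x‖ := by
    rw [← integral_add_right_eq_self (fun x => mu N ρ ‖x - a‖ * ζ x) a]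
    congr 1
    ext x
    rw [add_sub_cancel_right]
    ring
  rw [e1, h, e2, zero_add]
  ring

theorem t_CK (ton : S_TON) (int : S_INT) : S_CK :=
  fun N hN => ⟨cc N, t_CKall ton int N (by omega)⟩

theorem t_CK2 (ton : S_TON) (int : S_INT) : S_CK2 := ⟨cc 2, t_CKall ton int 2 (by omega)⟩

theorem t_CK3 (ton : S_TON) (int : S_INT) : S_CK3 :=
  fun N hN => ⟨cc N, t_CKall ton int N (by omega)⟩

end Pool.Agent.Q178.VP
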